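import Pool.Agent.Q237.LR.Stm5

/-!
# Project LR, third theorem: infinite volume limit of the Green function
-/

set_option autoImplicit false

namespace Pool.Agent.Q129.LR5

open MeasureTheory ProbabilityTheory Set Filter Topology H10PL Pool.Agent.Q237.LR4
  Pool.Agent.Q237.LR5
open Pool.Agent.Q124.LR (um um_nonneg um_summable Kf_le_um)

variable {d : ℕ} {T0 : (Fin d → ℤ) → (Fin d → ℤ) → ℝ} {κ : (Fin d → ℤ) → ℝ} {ρ0 b : ℝ}

/-- the Green function in the box, extended by zero -/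
noncomputable def un (T0 : (Fin d → ℤ) → (Fin d → ℤ) → ℝ) (κ : (Fin d → ℤ) → ℝ)
    (s : Sym2 (Fin d → ℤ) → Bool) (V : (Fin d → ℤ) → ℝ) (x : Fin d → ℤ) (E η : ℝ) (n : ℕ)
    (y : Fin d → ℤ) : ℂ :=
  if hx : x ∈ bx d n then
    if hy : y ∈ bx d n then
      Gm (Am T0 κ n (bx d n) s) (fun i : bx d n => V i) E η ⟨y, hy⟩ ⟨x, hx⟩ else 0
  else 0

theorem mem_bx {n : ℕ} {y : Fin d → ℤ} : y ∈ bx d n ↔ ‖y‖ ≤ n := by
  unfold bx
  rw [Set.Finite.mem_toFinset, mem_ofPred_eq, sub_zero]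

theorem un_off (s : Sym2 (Fin d → ℤ) → Bool) (V : (Fin d → ℤ) → ℝ) (x : Fin d → ℤ) (E η : ℝ)
    (n : ℕ) (y : Fin d → ℤ) (hy : y ∉ bx d n) : un T0 κ s V x E η n y = 0 := by
  unfold un
  by_cases hx : x ∈ bx d n
  · rw [dif_pos hx, dif_neg hy]
  · rw [dif_neg hx]

theorem un_on (s : Sym2 (Fin d → ℤ) → Bool) (V : (Fin d → ℤ) → ℝ) (x : Fin d → ℤ) (E η : ℝ)
    (n : ℕ) (hx : x ∈ bx d n) (i : bx d n) : un T0 κ s V x E η n i =
      Gm (Am T0 κ n (bx d n) s) (fun i : bx d n => V i) E η i ⟨x, hx⟩ := by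
  unfold un
  rw [dif_pos hx, dif_pos i.2]

theorem un_sum (h : Adm T0 κ ρ0 b) (s : Sym2 (Fin d → ℤ) → Bool) (V : (Fin d → ℤ) → ℝ)
    (x : Fin d → ℤ) (E : ℝ) {η : ℝ} (hη : 0 < η) (n : ℕ) (F : Finset (Fin d → ℤ)) :
    ∑ y ∈ F, ‖un T0 κ s V x E η n y‖ ^ 2 ≤ 1 / η ^ 2 := by
  classical
  by_cases hx : x ∈ bx d n
  · have h1 : ∑ y ∈ F, ‖un T0 κ s V x E η n y‖ ^ 2 ≤
        ∑ y ∈ F ∪ bx d n, ‖un T0 κ s V x E η n y‖ ^ 2 :=
      Finset.sum_le_sum_of_subset_of_nonneg Finset.subset_union_left fun y _ _ => sq_nonneg _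
    have h2 : ∑ y ∈ bx d n, ‖un T0 κ s V x E η n y‖ ^ 2 =
        ∑ y ∈ F ∪ bx d n, ‖un T0 κ s V x E η n y‖ ^ 2 := by
      refine Finset.sum_subset Finset.subset_union_right fun y _ hy => ?_
      rw [un_off s V x E η n y hy]
      simp
    have h3 : ∑ y ∈ bx d n, ‖un T0 κ s V x E η n y‖ ^ 2 =
        ∑ i : bx d n, ‖Gm (Am T0 κ n (bx d n) s) (fun i : bx d n => V i) E η i ⟨x, hx⟩‖ ^ 2 := by
      rw [← Finset.sum_coe_sort (bx d n) (fun y => ‖un T0 κ s V x E η n y‖ ^ 2)]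
      refine Finset.sum_congr rfl fun i _ => ?_
      rw [un_on s V x E η n hx i]
    rw [← h2, h3, ward _ (Am_symm h _ _ _) _ _ hη] at h1
    refine h1.trans ?_
    have h4 := Pm_diag_le (Am T0 κ n (bx d n) s) (Am_symm h _ _ _) (fun i : bx d n => V i) E hη
      ⟨x, hx⟩
    calc _ ≤ (1 / η) / η := div_le_div_of_nonneg_right h4 hη.le
      _ = 1 / η ^ 2 := by field_simp
  · have h1 : ∀ y, un T0 κ s V x E η n y = 0 := by
      intro y
      unfold un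
      rw [dif_neg hx]
    simp only [h1, norm_zero]
    simp
    positivity

theorem un_eq (h : Adm T0 κ ρ0 b) (s : Sym2 (Fin d → ℤ) → Bool) (V : (Fin d → ℤ) → ℝ)
    (x : Fin d → ℤ) (E : ℝ) {η : ℝ} (hη : 0 < η) (n : ℕ) (hx : x ∈ bx d n) (y : Fin d → ℤ)
    (hy : y ∈ bx d n) :
    ∑ w ∈ bx d n, (Kr T0 κ n s y w : ℂ) * un T0 κ s V x E η n w +
      (V y - zE E η) * un T0 κ s V x E η n y = if y = x then 1 else 0 := by
  classical
  have h1 := congrFun (congrFun (Mz_mul_Gm (Am T0 κ n (bx d n) s) (Am_symm h _ _ _)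
    (fun i : bx d n => V i) E hη) ⟨y, hy⟩) ⟨x, hx⟩
  rw [Matrix.mul_apply, Matrix.one_apply] at h1
  simp only [Mz_apply, add_mul, ite_mul, zero_mul, Finset.sum_add_distrib, Finset.sum_ite_eq,
    Finset.mem_univ, if_true, Subtype.mk.injEq] at h1
  rw [← h1, ← Finset.sum_coe_sort (bx d n)
    (fun w => (Kr T0 κ n s y w : ℂ) * un T0 κ s V x E η n w)]
  have e1 : un T0 κ s V x E η n y =
      Gm (Am T0 κ n (bx d n) s) (fun i : bx d n => V i) E η ⟨y, hy⟩ ⟨x, hx⟩ :=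
    un_on s V x E η n hx ⟨y, hy⟩
  rw [e1]
  unfold zE
  congr 1
  refine Finset.sum_congr rfl fun i _ => ?_
  rw [un_on s V x E η n hx i]
  rfl

/-- Cauchy-Schwarz for finite complex sums -/
theorem cs_fin (F : Finset (Fin d → ℤ)) (a : (Fin d → ℤ) → ℝ) (u : (Fin d → ℤ) → ℂ) :
    ‖∑ w ∈ F, (a w : ℂ) * u w‖ ^ 2 ≤ (∑ w ∈ F, a w ^ 2) * ∑ w ∈ F, ‖u w‖ ^ 2 := by
  have h1 : ‖∑ w ∈ F, (a w : ℂ) * u w‖ ≤ ∑ w ∈ F, |a w| * ‖u w‖ := by
    refine (norm_sum_le _ _).trans (le_of_eq ?_)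
    refine Finset.sum_congr rfl fun w _ => ?_
    rw [norm_mul, Complex.norm_real, Real.norm_eq_abs]
  have h2 := Finset.sum_mul_sq_le_sq_mul_sq F (fun w => |a w|) (fun w => ‖u w‖)
  simp only [sq_abs] at h2
  exact (pow_le_pow_left₀ (norm_nonneg _) h1 2).trans h2

theorem un_tail (h : Adm T0 κ ρ0 b) (s : Sym2 (Fin d → ℤ) → Bool) (V : (Fin d → ℤ) → ℝ)
    (x : Fin d → ℤ) (E : ℝ) {η : ℝ} (hη : 0 < η) (y : Fin d → ℤ) (F : Finset (Fin d → ℤ))
    (n : ℕ) (hx : x ∈ bx d n) (hy : y ∈ bx d n) (hF : ∀ w ∈ F, w ∈ bx d n ∧ ‖y - w‖ ≤ n) :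
    ‖∑ w ∈ F, (Kf T0 κ s y w : ℂ) * un T0 κ s V x E η n w +
      (V y - zE E η) * un T0 κ s V x E η n y - (if y = x then 1 else 0)‖ ^ 2 ≤
      tl T0 κ y F * (1 / η ^ 2) := by
  classical
  have h1 := un_eq h s V x E hη n hx y hy
  have hsub : F ⊆ bx d n := fun w hw => (hF w hw).1
  have h2 : ∑ w ∈ bx d n, (Kr T0 κ n s y w : ℂ) * un T0 κ s V x E η n w =
      ∑ w ∈ bx d n \ F, (Kr T0 κ n s y w : ℂ) * un T0 κ s V x E η n w +
      ∑ w ∈ F, (Kf T0 κ s y w : ℂ) * un T0 κ s V x E η n w := by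
    rw [← Finset.sum_sdiff hsub]
    congr 1
    refine Finset.sum_congr rfl fun w hw => ?_
    unfold Kr
    rw [if_pos (hF w hw).2]
  have h3 : ∑ w ∈ F, (Kf T0 κ s y w : ℂ) * un T0 κ s V x E η n w +
      (V y - zE E η) * un T0 κ s V x E η n y - (if y = x then 1 else 0) =
      -∑ w ∈ bx d n \ F, (Kr T0 κ n s y w : ℂ) * un T0 κ s V x E η n w := by
    rw [← h1, h2]
    ring
  rw [h3, norm_neg]
  refine (cs_fin _ _ _).trans ?_
  have h4 : ∑ w ∈ bx d n \ F, Kr T0 κ n s y w ^ 2 ≤ tl T0 κ y F := by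
    have h5 : ∑ w ∈ bx d n \ F, Kr T0 κ n s y w ^ 2 ≤ ∑ w ∈ bx d n \ F, um T0 κ y w := by
      refine Finset.sum_le_sum fun w _ => ?_
      unfold Kr
      split_ifs
      · exact Kf_le_um s y w
      · rw [zero_pow two_ne_zero]
        exact um_nonneg y w
    have h6 := (um_summable h y).sum_le_tsum (bx d n) fun w _ => um_nonneg y w
    have h7 := Finset.sum_sdiff (f := fun w => um T0 κ y w) hsub
    unfold tl
    linarith
  exact mul_le_mul h4 (un_sum h s V x E hη n _) (Finset.sum_nonneg fun w _ => sq_nonneg _)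
    (tl_nonneg h y F)

/-- limits solve the equation -/
theorem sol_of_tendsto (h : Adm T0 κ ρ0 b) (s : Sym2 (Fin d → ℤ) → Bool) (V : (Fin d → ℤ) → ℝ)
    (x : Fin d → ℤ) (E : ℝ) {η : ℝ} (hη : 0 < η) (g : Filter ℕ) [g.NeBot] (hg : g ≤ atTop)
    (u : (Fin d → ℤ) → ℂ) (hu : Tendsto (fun n => un T0 κ s V x E η n) g (𝓝 u)) :
    Sol T0 κ s V (zE E η) x u := by
  classical
  have huy : ∀ y, Tendsto (fun n => un T0 κ s V x E η n y) g (𝓝 (u y)) := fun y =>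
    ((continuous_apply y).tendsto u).comp hu
  have hF : ∀ F : Finset (Fin d → ℤ), ∑ y ∈ F, ‖u y‖ ^ 2 ≤ 1 / η ^ 2 := by
    intro F
    refine le_of_tendsto' (tendsto_finsetSum F fun y _ => ((huy y).norm.pow 2)) fun n => ?_
    exact un_sum h s V x E hη n F
  have hs : Summable fun y => ‖u y‖ ^ 2 := summable_of_sum_le (fun _ => sq_nonneg _) hF
  refine ⟨hs, fun y => ?_⟩
  obtain ⟨hsum, hHK⟩ := HK_eq h s V u hs y
  have h1 : ∀ F : Finset (Fin d → ℤ),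
      ‖∑ w ∈ F, (Kf T0 κ s y w : ℂ) * u w + (V y - zE E η) * u y - (if y = x then 1 else 0)‖ ^ 2 ≤
        tl T0 κ y F * (1 / η ^ 2) := by
    intro F
    have l0 : Tendsto (fun n => ∑ w ∈ F, (Kf T0 κ s y w : ℂ) * un T0 κ s V x E η n w) g
        (𝓝 (∑ w ∈ F, (Kf T0 κ s y w : ℂ) * u w)) :=
      tendsto_finsetSum F fun w _ => (huy w).const_mul _
    have l1 : Tendsto (fun n => ‖∑ w ∈ F, (Kf T0 κ s y w : ℂ) * un T0 κ s V x E η n w +
        (V y - zE E η) * un T0 κ s V x E η n y - (if y = x then 1 else 0)‖ ^ 2) g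
        (𝓝 (‖∑ w ∈ F, (Kf T0 κ s y w : ℂ) * u w + (V y - zE E η) * u y -
          (if y = x then 1 else 0)‖ ^ 2)) :=
      (((l0.add ((huy y).const_mul _)).sub tendsto_const_nhds).norm).pow 2
    refine le_of_tendsto l1 (hg ?_)
    have e1 : ∀ᶠ n : ℕ in atTop, x ∈ bx d n := by
      filter_upwards [tendsto_natCast_atTop_atTop.eventually_ge_atTop ‖x‖] with n hn
      exact mem_bx.2 hn
    have e2 : ∀ᶠ n : ℕ in atTop, y ∈ bx d n := by
      filter_upwards [tendsto_natCast_atTop_atTop.eventually_ge_atTop ‖y‖] with n hn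
      exact mem_bx.2 hn
    have e3 : ∀ᶠ n : ℕ in atTop, ∀ w ∈ F, w ∈ bx d n ∧ ‖y - w‖ ≤ n := by
      rw [Filter.eventually_all_finset]
      intro w _
      filter_upwards [tendsto_natCast_atTop_atTop.eventually_ge_atTop ‖w‖,
        tendsto_natCast_atTop_atTop.eventually_ge_atTop ‖y - w‖] with n hn hn2
      exact ⟨mem_bx.2 hn, hn2⟩
    filter_upwards [e1, e2, e3] with n h1 h2 h3
    exact un_tail h s V x E hη y F n h1 h2 h3
  have l1 : Tendsto (fun F : Finset (Fin d → ℤ) =>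
      ‖∑ w ∈ F, (Kf T0 κ s y w : ℂ) * u w + (V y - zE E η) * u y -
        (if y = x then 1 else 0)‖ ^ 2) atTop
      (𝓝 (‖∑' w, (Kf T0 κ s y w : ℂ) * u w + (V y - zE E η) * u y -
        (if y = x then 1 else 0)‖ ^ 2)) :=
    (((hsum.hasSum.add_const _).sub tendsto_const_nhds).norm).pow 2
  have l2 : Tendsto (fun F : Finset (Fin d → ℤ) => tl T0 κ y F * (1 / η ^ 2)) atTop (𝓝 0) := by
    have h5 := (um_summable h y).hasSum
    have h6 : Tendsto (fun F : Finset (Fin d → ℤ) =>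
        (∑' w, um T0 κ y w - ∑ w ∈ F, um T0 κ y w) * (1 / η ^ 2))
        atTop (𝓝 ((∑' w, um T0 κ y w - ∑' w, um T0 κ y w) * (1 / η ^ 2))) :=
      (tendsto_const_nhds.sub h5).mul_const _
    rw [sub_self, zero_mul] at h6
    exact h6
  have h7 := le_of_tendsto_of_tendsto' l1 l2 h1
  have h8 : ‖∑' w, (Kf T0 κ s y w : ℂ) * u w + (V y - zE E η) * u y -
      (if y = x then 1 else 0)‖ = 0 :=
    pow_eq_zero_iff (two_ne_zero) |>.1 (le_antisymm h7 (sq_nonneg _))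
  rw [norm_eq_zero] at h8
  rw [hHK]
  linear_combination h8

/-- CNV: infinite volume limit of the Green function -/
theorem cnv (hU : S_UNQ) : S_CNV := by
  classical
  intro d T0 κ ρ0 b h s hc V x E η hη
  have hzim : (zE E η).im ≠ 0 := by
    unfold zE
    simp [hη.ne']
  have hK : IsCompact (Set.pi univ fun _ : (Fin d → ℤ) => Metric.closedBall (0 : ℂ) (1 / η)) :=
    isCompact_univ_pi fun _ => isCompact_closedBall _ _
  have hmem : ∀ n, un T0 κ s V x E η n ∈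
      Set.pi univ fun _ : (Fin d → ℤ) => Metric.closedBall (0 : ℂ) (1 / η) := by
    intro n y _
    rw [mem_closedBall_zero_iff]
    have h1 := un_sum h s V x E hη n {y}
    rw [Finset.sum_singleton] at h1
    have h2 : (1 : ℝ) / η ^ 2 = (1 / η) ^ 2 := by rw [div_pow, one_pow]
    rw [h2] at h1
    exact (sq_le_sq₀ (norm_nonneg _) (by positivity)).1 h1
  have hult : ∀ g : Ultrafilter ℕ, (g : Filter ℕ) ≤ atTop → ∃ u, Sol T0 κ s V (zE E η) x u ∧
      Tendsto (fun n => un T0 κ s V x E η n) g (𝓝 u) := by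
    intro g hg
    obtain ⟨u, -, hu⟩ := hK.ultrafilter_le_nhds (g.map fun n => un T0 κ s V x E η n) (by
      rw [le_principal_iff, Ultrafilter.mem_coe, Ultrafilter.mem_map]
      exact Filter.univ_mem' hmem)
    exact ⟨u, sol_of_tendsto h s V x E hη g hg u hu, hu⟩
  obtain ⟨u, hu, -⟩ := hult (Ultrafilter.of atTop) (Ultrafilter.of_le _)
  refine ⟨u, hu, ?_⟩
  have hlim : Tendsto (fun n => un T0 κ s V x E η n) atTop (𝓝 u) := by
    rw [tendsto_iff_ultrafilter]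
    intro g hg
    obtain ⟨u', hu', ht⟩ := hult g hg
    rw [hU d T0 κ ρ0 b h s hc V (zE E η) x u u' hzim hu hu']
    exact ht
  have hx : Tendsto (fun n => un T0 κ s V x E η n x) atTop (𝓝 (u x)) :=
    ((continuous_apply x).tendsto u).comp hlim
  refine hx.congr fun n => ?_
  unfold un Gn
  by_cases hxn : x ∈ bx d n
  · rw [dif_pos hxn, dif_pos hxn]
  · rw [dif_neg hxn, dif_neg hxn]

end Pool.Agent.Q129.LR5
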